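import Pool.Agent.Helper10.RC.Basic

/-!
# Packet SL2: the symmetric form of the averaging elements
-/

open scoped ENNReal NNReal InnerProductSpace ComplexOrder
open Filter Topology

attribute [-instance] CStarMatrix.instAlgebra CStarMatrix.instModule CStarMatrix.instSMul
  CStarMatrix.instMulAction CStarMatrix.instDistribMulAction

noncomputable section
namespace RC
universe u

theorem sL2P (h : SL1P.{u}) : SL2P.{u} := by
  classical
  intro A _ _ _ G _ _ α hα hA
  obtain ⟨m, a, b, z, hz, hcomm, hsum⟩ := h A G α hα hA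
  set n : ℂ := (Fintype.card G : ℂ) with hn
  have hn0 : (Fintype.card G : ℝ) ≠ 0 := by
    exact_mod_cast Fintype.card_ne_zero
  -- commutation for the adjoints
  have hstar : ∀ (g : G) (y : A), star (z g) * y = α g y * star (z g) := by
    intro g y
    have := congrArg star (hcomm (star y) g)
    rw [star_mul, star_mul, star_star, ← map_star, star_star] at this
    exact this
  have hst : ∀ (s t : G) (y : A), α t y * α s (star (z (s⁻¹ * t))) =
      α s (star (z (s⁻¹ * t))) * α s y := by
    intro s t y
    rw [← map_mul, hstar, map_mul, ← hα, mul_inv_cancel_left]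
  have hsum' : ∀ s : G, ∑ t, α s (star (z (s⁻¹ * t))) = 1 := by
    intro s
    rw [← map_sum, ← star_sum]
    have : ∑ t, z (s⁻¹ * t) = ∑ g, z g := Equiv.sum_comp (Equiv.mulLeft s⁻¹) z
    rw [this, hsum, star_one, map_one]
  have hkey : ∀ s : G, ∑ t, z t * α s (star (z (s⁻¹ * t))) = z s := by
    intro s
    calc ∑ t, z t * α s (star (z (s⁻¹ * t)))
        = ∑ t, n⁻¹ • ∑ i, a i * (α s (star (z (s⁻¹ * t))) * α s (b i)) := by
          refine Finset.sum_congr rfl fun t _ => ?_
          conv_lhs => rw [hz t]
          rw [smul_mul_assoc, Finset.sum_mul]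
          congr 1
          refine Finset.sum_congr rfl fun i _ => ?_
          rw [mul_assoc, hst]
      _ = n⁻¹ • ∑ i, a i * ((∑ t, α s (star (z (s⁻¹ * t)))) * α s (b i)) := by
          rw [← Finset.smul_sum, Finset.sum_comm]
          congr 1
          refine Finset.sum_congr rfl fun i _ => ?_
          rw [Finset.sum_mul, Finset.mul_sum]
      _ = z s := by
          rw [hsum', hz s]
          simp
  -- the matrix `Q`
  set r : ℝ := (Real.sqrt (Fintype.card G))⁻¹ with hr
  have hrr : r * r = (Fintype.card G : ℝ)⁻¹ := by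
    rw [hr, ← mul_inv, Real.mul_self_sqrt (Nat.cast_nonneg _)]
  let X : CStarMatrix (Fin m) G A := CStarMatrix.ofMatrix fun i g => (r : ℂ) • α g (b i)
  let Q : CStarMatrix (Fin m) (Fin m) A := X * X.conjTranspose
  have hQ : ∀ i l, Q i l = n⁻¹ • ∑ t, α t (b i * star (b l)) := by
    intro i l
    have e1 : Q i l = ∑ t, X i t * star (X l t) := rfl
    rw [e1, Finset.smul_sum]
    refine Finset.sum_congr rfl fun t _ => ?_
    have e2 : X i t = (r : ℂ) • α t (b i) := rfl
    have e3 : X l t = (r : ℂ) • α t (b l) := rfl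
    rw [e2, e3, star_smul, smul_mul_smul_comm, map_mul, map_star]
    congr 1
    have : star (r : ℂ) = (r : ℂ) := Complex.conj_ofReal r
    rw [this, hn, ← Complex.ofReal_mul, hrr]
    push_cast
    rfl
  have hQ0 : 0 ≤ Q := cm_mul_conj_nonneg X
  let S : CStarMatrix (Fin m) (Fin m) A := CFC.sqrt Q
  have hS0 : 0 ≤ S := CFC.sqrt_nonneg Q
  have hSS : S * S = Q := CFC.sqrt_mul_sqrt_self Q hQ0
  have hSsa : star S = S := (IsSelfAdjoint.of_nonneg hS0).star_eq
  -- invariance of the square root
  have hQinv : ∀ g i l, α g (Q i l) = Q i l := by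
    intro g i l
    rw [hQ, map_smul, map_sum]
    congr 1
    have : ∀ t, α g (α t (b i * star (b l))) = α (g * t) (b i * star (b l)) :=
      fun t => (hα g t _).symm
    simp_rw [this]
    exact Equiv.sum_comp (Equiv.mulLeft g) fun t => α t (b i * star (b l))
  have hSinv : ∀ g i l, α g (S i l) = S i l := by
    intro g
    let ψ : CStarMatrix (Fin m) (Fin m) A → CStarMatrix (Fin m) (Fin m) A :=
      fun T => CStarMatrix.ofMatrix fun i l => α g (T i l)
    have hψm : ∀ T T' : CStarMatrix (Fin m) (Fin m) A, ψ (T * T') = ψ T * ψ T' := by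
      intro T T'
      ext i l
      show α g (∑ k, T i k * T' k l) = ∑ k, α g (T i k) * α g (T' k l)
      rw [map_sum]
      exact Finset.sum_congr rfl fun k _ => map_mul _ _ _
    have hψs : ∀ T : CStarMatrix (Fin m) (Fin m) A, ψ (star T) = star (ψ T) := by
      intro T
      ext i l
      show α g (star (T l i)) = star (α g (T l i))
      exact map_star _ _
    have hψQ : ψ Q = Q := by
      ext i l
      exact hQinv g i l
    have h1 : ψ S * ψ S = Q := by rw [← hψm, hSS, hψQ]
    have h2 : 0 ≤ ψ S := by
      obtain ⟨T, hT⟩ := CStarAlgebra.nonneg_iff_eq_mul_star_self.mp hS0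
      rw [hT, hψm, hψs]
      exact mul_star_self_nonneg _
    have h3 : S = ψ S := CFC.sqrt_unique h1 h2
    intro i l
    exact (congrFun (congrFun h3 i) l).symm
  refine ⟨m, fun k => ∑ i, a i * S i k, z, ?_, hcomm, hsum⟩
  intro s
  have hstz : ∀ t, α s (star (z (s⁻¹ * t))) = n⁻¹ • ∑ l, α t (star (b l)) * α s (star (a l)) := by
    intro t
    rw [hz, star_smul, map_smul]
    have : star n⁻¹ = n⁻¹ := by
      rw [hn]
      simp
    rw [this, star_sum, map_sum]
    congr 1
    refine Finset.sum_congr rfl fun l _ => ?_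
    rw [star_mul, map_mul, ← map_star, ← hα, mul_inv_cancel_left]
  have hfin : z s = n⁻¹ • ∑ i, ∑ l, a i * Q i l * α s (star (a l)) := by
    rw [← hkey s]
    calc ∑ t, z t * α s (star (z (s⁻¹ * t)))
        = ∑ t, n⁻¹ • ∑ i, ∑ l, n⁻¹ • (a i * α t (b i * star (b l)) * α s (star (a l))) := by
          refine Finset.sum_congr rfl fun t _ => ?_
          rw [hstz t, hz t, smul_mul_assoc]
          congr 1
          rw [Finset.sum_mul]
          refine Finset.sum_congr rfl fun i _ => ?_
          rw [mul_smul_comm, Finset.mul_sum, Finset.smul_sum]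
          refine Finset.sum_congr rfl fun l _ => ?_
          rw [map_mul]
          simp only [mul_assoc]
      _ = n⁻¹ • ∑ i, ∑ l, ∑ t, n⁻¹ • (a i * α t (b i * star (b l)) * α s (star (a l))) := by
          rw [← Finset.smul_sum, Finset.sum_comm]
          congr 1
          refine Finset.sum_congr rfl fun i _ => ?_
          rw [Finset.sum_comm]
      _ = _ := by
          congr 1
          refine Finset.sum_congr rfl fun i _ => Finset.sum_congr rfl fun l _ => ?_
          rw [hQ, ← Finset.smul_sum, mul_smul_comm, smul_mul_assoc, Finset.mul_sum,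
            Finset.sum_mul]
  rw [hfin]
  congr 1
  -- the right hand side
  have hright : ∀ k, (∑ i, a i * S i k) * α s (star (∑ i, a i * S i k)) =
      ∑ i, ∑ l, a i * (S i k * S k l) * α s (star (a l)) := by
    intro k
    rw [star_sum, map_sum, Finset.sum_mul]
    refine Finset.sum_congr rfl fun i _ => ?_
    rw [Finset.mul_sum]
    refine Finset.sum_congr rfl fun l _ => ?_
    have e1 : star (S l k) = S k l := congrFun (congrFun hSsa k) l
    rw [star_mul, map_mul, e1, hSinv]
    simp only [mul_assoc]
  simp_rw [hright]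
  symm
  rw [Finset.sum_comm]
  refine Finset.sum_congr rfl fun i _ => ?_
  rw [Finset.sum_comm]
  refine Finset.sum_congr rfl fun l _ => ?_
  rw [← Finset.sum_mul, ← Finset.mul_sum]
  have : Q i l = ∑ k, S i k * S k l := by
    rw [← hSS]
    rfl
  rw [this]

end RC
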